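import Pool.Agent.Lib.MP_70d14f_gt.SGenus
import Pool.Agent.Lib.MP_70d14f_gt.SCob

/-!
# Exact Maslov 0 Lagrangian cobordisms need not minimise the genus

All definitions used in the statement are in `Pool/Agent/Lib/MP_70d14f_gt/Defs.lean`.  The
uniqueness of the tangent spaces used there is
`Pool.Agent.MP_70d14f_gt.tangentSpace_unique` in `Pool/Agent/Lib/MP_70d14f_gt/Tangent.lean`.

The Lagrangian surface `LL δ` (file `LSurf.lean`) is the union of pieces
`η² = g(t, x)`, `y = η Q`, `z = m + η P`, with two handles which open as `t` grows; its ends are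
Legendrian unknots with Thurston-Bennequin numbers `-5` and `-3`.  The set `Sg` (file `Sig.lean`)
is a smooth annulus with the same ends.
-/

namespace Pool.Agent.Results.MP_70d14f_gt.NotMinimal

open Pool.Agent.MP_70d14f_gt

/-- There are Legendrian knots `Λm`, `Λp` in `(ℝ³, dz - y dx)` and an exact Maslov 0 Lagrangian
cobordism `L` from `Λm` to `Λp` whose genus is larger than the minimal genus of a smooth cobordism
between the underlying oriented knots. -/
theorem result : ∃ (Λm Λp : LegendrianKnot) (T : ℝ) (L : Set (ℝ × ℝ × ℝ × ℝ)),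
    IsCobordism Λm.toOrientedKnot Λp.toOrientedKnot T L ∧ IsExactMaslovZero T L ∧
      relFourGenus Λm.toOrientedKnot Λp.toOrientedKnot < genus T L := by
  obtain ⟨δ, B, G⟩ := exists_good
  have hδ := G.hδ
  set T : ℝ := 1 / δ + 1 with hT
  have hT1 : 1 / δ < T := by rw [hT]; linarith
  have hm : δ * T = 1 + δ := by rw [hT]; field_simp
  have h1 : δ * (-T) < -1 ∨ 1 < δ * (-T) := by left; linarith
  have h2 : δ * T < -1 ∨ 1 < δ * T := by right; linarith
  have c1 : IsConnected (slc δ (-T)) := slc_bot_conn (by linarith)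
  have c2 : IsConnected (slc δ T) := slc_top_conn (by linarith)
  refine ⟨kn G h1 c1, kn G h2 c2, T, LL δ, LL_cobordism G hT1 h1 h2 c1 c2,
    LL_exactMaslovZero G hT1.le, ?_⟩
  have hS := Sg_cobordism G hT1 h1 h2 c1 c2
  obtain ⟨J, j1, j2, j3⟩ := exists_planar
  have h0 : genus 6 Sg = 0 := genus_zero_of_planar hS j1 j2 j3
  have hle : relFourGenus (kn G h1 c1).toOrientedKnot (kn G h2 c2).toOrientedKnot ≤ 0 := by
    rw [← h0]
    exact iInf_le (fun TS : {TS : ℝ × Set (ℝ × ℝ × ℝ × ℝ) //
      IsCobordism (kn G h1 c1).toOrientedKnot (kn G h2 c2).toOrientedKnot TS.1 TS.2} =>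
        genus TS.1.1 TS.1.2) ⟨(6, Sg), hS⟩
  have hL : 1 ≤ genus T (LL δ) := one_le_genus hδ hT1.le
  exact lt_of_le_of_lt hle (lt_of_lt_of_le zero_lt_one hL)

end Pool.Agent.Results.MP_70d14f_gt.NotMinimal
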